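import Pool.Agent.H69.LQ.Lib

/-!
# JZ: the function `J` has a zero
-/

set_option autoImplicit false

open MeasureTheory Metric Set
open scoped ENNReal
open Pool.Agent.H85.LK (E adm lam Ann)
open Pool.Agent.H69.LQ

namespace Pool.Agent.H63.LQ

theorem pf_JZ (hJS : T_JS) (hJI : T_JI) : T_JZ := by
  intro ν hν
  by_contra hcon
  push Not at hcon
  have hν0 : 0 < ν := by linarith
  have hcont : ∀ μ : ℝ, 0 < μ → Continuous (J μ) := fun μ hμ => (hJS μ hμ).1.continuous
  have hder : ∀ μ : ℝ, 0 < μ → ∀ z, HasDerivAt (J μ) (-(J (μ + 1) z / μ)) z :=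
    fun μ hμ => (hJS μ hμ).2.2.1
  have hrec : ∀ z, J ν z = J (ν + 1) z - z / (ν * (ν + 1)) * J (ν + 2) z := (hJS ν hν0).2.2.2
  -- the next function is positive
  have hpos1 : ∀ z, 0 < z → 0 < J (ν + 1) z := by
    intro z hz
    have h1 : 0 < ∫ t in (0 : ℝ)..z, t ^ (ν - 1) * J ν t := by
      apply intervalIntegral.intervalIntegral_pos_of_pos_on
      · apply Continuous.intervalIntegrable
        exact (Real.continuous_rpow_const (by linarith)).mul (hcont ν hν0)
      · intro x hx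
        exact mul_pos (Real.rpow_pos_of_pos hx.1 _) (hcon x hx.1)
      · exact hz
    rw [← hJI ν z hν hz.le] at h1
    have h2 : 0 < z ^ ν := Real.rpow_pos_of_pos hz _
    have h3 : 0 < J (ν + 1) z / ν := (mul_pos_iff_of_pos_left h2).mp h1
    exact (div_pos_iff_of_pos_right hν0).mp h3
  have hanti : ∀ s t : ℝ, 0 < s → s ≤ t → J ν t ≤ J ν s := by
    intro s t hs hst
    have h1 : AntitoneOn (J ν) (Icc s t) := by
      apply antitoneOn_of_deriv_nonpos (convex_Icc s t) (hcont ν hν0).continuousOn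
      · intro x _
        exact (hder ν hν0 x).differentiableAt.differentiableWithinAt
      · intro x hx
        rw [interior_Icc] at hx
        rw [(hder ν hν0 x).deriv]
        have h2 := hpos1 x (hs.trans hx.1)
        have h3 : 0 < J (ν + 1) x / ν := div_pos h2 hν0
        linarith
    exact h1 ⟨le_refl s, hst⟩ ⟨hst, le_refl t⟩ hst
  obtain ⟨Z, hZ⟩ : ∃ Z : ℝ, Z = 2 * ν * (ν + 1) := ⟨_, rfl⟩
  obtain ⟨t₀, ht₀⟩ : ∃ t₀ : ℝ, t₀ = Z - ν := ⟨_, rfl⟩
  have hZpos : 0 < Z := by rw [hZ]; positivity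
  have ht₀pos : 0 < t₀ := by
    have : t₀ = ν * (2 * ν + 1) := by rw [ht₀, hZ]; ring
    rw [this]; positivity
  -- derivatives
  have hF : ∀ t, 0 < t →
      HasDerivAt (fun t => t ^ ν * (J (ν + 1) t / ν)) (t ^ (ν - 1) * J ν t) t := by
    intro t ht
    have h1 := (Real.hasDerivAt_rpow_const (p := ν) (Or.inl ht.ne')).mul
      ((hder (ν + 1) (by linarith) t).div_const ν)
    have h2 : ν * t ^ (ν - 1) * (J (ν + 1) t / ν) + t ^ ν * (-(J (ν + 1 + 1) t / (ν + 1)) / ν) =
        t ^ (ν - 1) * J ν t := by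
      have h3 : t ^ ν = t ^ (ν - 1) * t := by
        rw [← Real.rpow_add_one ht.ne']
        congr 1
        ring
      rw [h3, hrec t, show ν + 1 + 1 = ν + 2 by ring]
      field_simp
      ring
    rw [h2] at h1
    exact h1
  have hH : ∀ t, 0 < t → HasDerivAt (fun t => t ^ ν * J ν t / Z -
      (1 - t / Z) * (t ^ ν * (J (ν + 1) t / ν)) -
      J ν t₀ * (t ^ (ν + 1) / ((ν + 1) * Z) - t₀ * t ^ ν / (ν * Z)))
      (t ^ (ν - 1) * (t - t₀) / Z * (J ν t - J ν t₀)) t := by
    intro t ht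
    have h1 := ((Real.hasDerivAt_rpow_const (p := ν) (Or.inl ht.ne')).mul
      (hder ν hν0 t)).div_const Z
    have h2 : HasDerivAt (fun t : ℝ => 1 - t / Z) (-(1 / Z)) t := by
      have := ((hasDerivAt_id t).div_const Z).const_sub 1
      simpa using this
    have h3 := h2.mul (hF t ht)
    have h4 := (Real.hasDerivAt_rpow_const (x := t) (p := ν + 1) (Or.inl ht.ne')).div_const
      ((ν + 1) * Z)
    have h5 := ((Real.hasDerivAt_rpow_const (x := t) (p := ν) (Or.inl ht.ne')).const_mul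
      t₀).div_const (ν * Z)
    have h6 := ((h1.sub h3).sub ((h4.sub h5).const_mul (J ν t₀)))
    refine h6.congr_deriv ?_
    have h7 : t ^ ν = t ^ (ν - 1) * t := by
      rw [← Real.rpow_add_one ht.ne']
      congr 1
      ring
    rw [show ν + 1 - 1 = ν by ring, h7, ht₀]
    field_simp
    ring
  have hanti2 : AntitoneOn (fun t => t ^ ν * J ν t / Z -
      (1 - t / Z) * (t ^ ν * (J (ν + 1) t / ν)) -
      J ν t₀ * (t ^ (ν + 1) / ((ν + 1) * Z) - t₀ * t ^ ν / (ν * Z))) (Icc 0 Z) := by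
    apply antitoneOn_of_deriv_nonpos (convex_Icc 0 Z)
    · apply Continuous.continuousOn
      have c1 : Continuous fun t : ℝ => t ^ ν := Real.continuous_rpow_const hν0.le
      have c2 : Continuous fun t : ℝ => t ^ (ν + 1) := Real.continuous_rpow_const (by linarith)
      have c3 := hcont ν hν0
      have c4 := hcont (ν + 1) (by linarith)
      fun_prop
    · intro x hx
      rw [interior_Icc] at hx
      exact (hH x hx.1).differentiableAt.differentiableWithinAt
    · intro x hx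
      rw [interior_Icc] at hx
      rw [(hH x hx.1).deriv]
      have h1 : 0 < x ^ (ν - 1) := Real.rpow_pos_of_pos hx.1 _
      have h2 : (x - t₀) * (J ν x - J ν t₀) ≤ 0 := by
        rcases le_total x t₀ with h | h
        · exact mul_nonpos_of_nonpos_of_nonneg (by linarith)
            (by have := hanti x t₀ hx.1 h; linarith)
        · exact mul_nonpos_of_nonneg_of_nonpos (by linarith)
            (by have := hanti t₀ x ht₀pos h; linarith)
      have h3 : x ^ (ν - 1) * (x - t₀) / Z * (J ν x - J ν t₀) =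
          x ^ (ν - 1) / Z * ((x - t₀) * (J ν x - J ν t₀)) := by ring
      rw [h3]
      exact mul_nonpos_of_nonneg_of_nonpos (by positivity) h2
  have hle := hanti2 (⟨le_refl 0, hZpos.le⟩ : (0 : ℝ) ∈ Icc 0 Z)
    (⟨hZpos.le, le_refl Z⟩ : Z ∈ Icc 0 Z) hZpos.le
  simp only [Real.zero_rpow hν0.ne', Real.zero_rpow (show ν + 1 ≠ 0 by linarith)] at hle
  have hZν : Z ^ ν = Z ^ (ν - 1) * Z := by
    rw [← Real.rpow_add_one hZpos.ne']
    congr 1
    ring
  have hZν1 : Z ^ (ν + 1) = Z ^ (ν - 1) * Z * Z := by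
    rw [Real.rpow_add_one hZpos.ne', hZν]
  have hA : 0 < Z ^ (ν - 1) := Real.rpow_pos_of_pos hZpos _
  have e1 : Z ^ ν * J ν Z / Z - (1 - Z / Z) * (Z ^ ν * (J (ν + 1) Z / ν)) -
      J ν t₀ * (Z ^ (ν + 1) / ((ν + 1) * Z) - t₀ * Z ^ ν / (ν * Z)) =
      Z ^ (ν - 1) * (J ν Z + J ν t₀) := by
    rw [hZν1, hZν, div_self hZpos.ne']
    have h1 : Z ^ (ν - 1) * Z * J ν Z / Z = Z ^ (ν - 1) * J ν Z := by
      field_simp
    have h2 : Z ^ (ν - 1) * Z * Z / ((ν + 1) * Z) - t₀ * (Z ^ (ν - 1) * Z) / (ν * Z) =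
        Z ^ (ν - 1) * (Z / (ν + 1) - t₀ / ν) := by
      field_simp
    have h3 : Z / (ν + 1) - t₀ / ν = -1 := by
      rw [ht₀, hZ]
      field_simp
      ring
    rw [h1, h2, h3]
    ring
  rw [e1] at hle
  have h8 : 0 < Z ^ (ν - 1) * (J ν Z + J ν t₀) :=
    mul_pos hA (add_pos (hcon Z hZpos) (hcon t₀ ht₀pos))
  have h9 : Z ^ (ν - 1) * (J ν Z + J ν t₀) ≤ 0 := by
    refine hle.trans (le_of_eq ?_)
    ring
  linarith

end Pool.Agent.H63.LQ
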